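import Mathlib
import Pool.Agent.Helper57.Lindblad.Main

/-!
# Algebra-generating jump operators are Hamiltonian-independently contractive

Full positive answer to Q1 of MP_4e5d1f_mp, with constants `K, γ` that depend only on the jump
operators and not on the drive.

Idea of the proof.  For a Hermitian matrix `Y` let `low r Y` be the minimum of `tr (Q Y)` over the
orthogonal projections `Q` of rank `r`, i.e. the sum of the `r` smallest eigenvalues.  A minimising
`Q` commutes with `Y`, so the Hamiltonian part of the generator does not contribute to the rate of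
change of `low r`.  If the jump operators generate the full matrix algebra, no proper nonzero
subspace is invariant under all of them, and compactness of the set of projections gives `κ > 0`
with `∑ j, tr (L_j† Q L_j (1 - Q)) ≥ κ` for all nontrivial projections `Q`.  Hence along every
driven evolution of a density matrix
`(low r)' ≥ κ (low (r+1) - low r) - C low r`, and starting from `low d = 1` one gets
`E_{s+1,s}(ρ) ≥ δ 1` with `δ > 0` independent of `ρ`, `s` and of the drive.  This minorisation
gives `‖E_{s+1,s}(X)‖₁ ≤ (1 - d δ) ‖X‖₁` for traceless Hermitian `X`.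
-/

namespace Pool.Agent.Results.MP_4e5d1f_mp.GeneratingContractive

open Pool.Agent.Helper57.Lindblad

/-- Let `d ≥ 2` and let the jump operators `L_1, ..., L_m` generate the algebra of complex `d × d`
matrices.  Then there are `K, γ > 0`, depending only on the `L_j`, such that for every Hermitian,
measurable and locally bounded drive `H` the propagator of `-i [H(t), ·] + D` exists and every such
propagator satisfies `‖E_{t,s}(ρ) - E_{t,s}(σ)‖₁ ≤ K e^{-γ (t-s)} ‖ρ - σ‖₁` for all density
matrices `ρ, σ` and all `t ≥ s ≥ 0`. -/
theorem result (d m : ℕ) (hd : 2 ≤ d) (L : Fin m → Op d)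
    (hL : Algebra.adjoin ℂ (Set.range L) = ⊤) :
    ∃ K : ℝ, 0 < K ∧ ∃ γ : ℝ, 0 < γ ∧ ∀ H : ℝ → Op d, IsDrive H →
      (∃ E : ℝ → ℝ → (Op d →ₗ[ℂ] Op d), IsPropagator L H E) ∧
      ∀ E : ℝ → ℝ → (Op d →ₗ[ℂ] Op d), IsPropagator L H E → ContractiveWith K γ E := by
  obtain ⟨K, hK, γ, hγ, h⟩ := uniform_contraction (le_trans (by norm_num) hd) L hL
  exact ⟨K, hK, γ, hγ, fun H hH => ⟨exists_propagator L hH, h H hH⟩⟩

end Pool.Agent.Results.MP_4e5d1f_mp.GeneratingContractive
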